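import Pool.Agent.Helper32.Outer.Main

/-!
# No finite set of primitive elements of `F2` is rigid for `CV_2`

The definitions (metric trees, simplicial structures, points of `cv_2`, co-volume, translation
length, primitive elements, rigidity) are in `Pool.Agent.Helper32.Outer.Defs`.
-/

namespace Pool.Agent.Results.MP_9fd1ce_al.NoFinitePrimitiveRigidSet

open Pool.Agent.Helper32.Outer

/-- **Negative answer to Q1.** There is no finite `CV_2`-rigid set of primitive elements of the
free group of rank two. -/
theorem result : ¬ ∃ S : Set F2, S.Finite ∧ (∀ s ∈ S, IsPrimitive s) ∧ CV2Rigid S := by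
  rintro ⟨S, hS, hp, hrigid⟩
  obtain ⟨T, T', h1, h2, h3, h4⟩ := main hS hp
  exact h4 (hrigid T T' h1 h2 h3)

end Pool.Agent.Results.MP_9fd1ce_al.NoFinitePrimitiveRigidSet
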